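import Mathlib

/-!
# The critical speed of stars in the blind cop-robber game

For every `k ≥ 2`, all positive edge lengths and every speed `s > 2⌈k/2⌉ - 1` the cop has a winning
strategy on the star `S_k`.  For `k ≥ 4` this number is smaller than `2k - 3`, so that the
critical speed is not `(2k-3)⁺`.

Strategy: split the edges into two groups of at most `m = ⌈k/2⌉` edges.  Let `t₀` be the middle of
the time interval.  After the time `t₀` the cop makes round trips from the centre into the edges of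
the first group, in cyclic order, whose lengths grow geometrically, starting from infinitesimally
short ones; no robber who is in the first group at the time `t₀` can reach the centre, and
eventually he is caught.  Before the time `t₀` the cop does the same with the edges of the second
group, with time reversed, so that no robber can be in the second group at the time `t₀`.
-/

namespace Pool.Agent.Results.MP_29e9a5_co.StarSpeed

/-! ### Definitions -/

/-- The star with edge lengths `ℓ`: the point at distance `x` from the centre on the `i`-th edge is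
the vector with `i`-th coordinate `x` and all other coordinates `0`. -/
def Star {k : ℕ} (ℓ : Fin k → ℝ) : Type :=
  {v : Fin k → ℝ // (∀ i, 0 ≤ v i ∧ v i ≤ ℓ i) ∧ ∀ i j, i ≠ j → v i = 0 ∨ v j = 0}

/-- The shortest-path distance: `|x - y|` for two points on the same edge, `x + y` for points on
different edges. -/
def dst {k : ℕ} {ℓ : Fin k → ℝ} (v w : Star ℓ) : ℝ := ∑ i, |v.1 i - w.1 i|

/-- The restriction of `f` to `[0, T]` is `c`-Lipschitz. -/
def Lip {k : ℕ} {ℓ : Fin k → ℝ} (c T : ℝ) (f : ℝ → Star ℓ) : Prop :=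
  ∀ t ∈ Set.Icc 0 T, ∀ t' ∈ Set.Icc 0 T, dst (f t) (f t') ≤ c * |t - t'|

/-- The cop has a winning strategy at speed `s`: for some `T > 0` there is an `s`-Lipschitz map
`f` on `[0, T]` which meets every `1`-Lipschitz map `g` on `[0, T]`. -/
def Winnable {k : ℕ} (ℓ : Fin k → ℝ) (s : ℝ) : Prop :=
  ∃ T : ℝ, 0 < T ∧ ∃ f : ℝ → Star ℓ, Lip s T f ∧
    ∀ g : ℝ → Star ℓ, Lip 1 T g → ∃ t ∈ Set.Icc 0 T, f t = g t

/-- The critical speed (the infimum of the speeds at which the cop has a winning strategy). -/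
noncomputable def criticalSpeed {k : ℕ} (ℓ : Fin k → ℝ) : ℝ := sInf {s | 0 < s ∧ Winnable ℓ s}

/-! ### The signed coordinate along an edge -/

section Basic

variable {k : ℕ} {ℓ : Fin k → ℝ}

theorem Star.ext' {v w : Star ℓ} (h : ∀ i, v.1 i = w.1 i) : v = w := Subtype.ext (funext h)

theorem sum_le (v : Star ℓ) {B : ℝ} (hB : 0 ≤ B) (h : ∀ i, v.1 i ≤ B) : ∑ i, v.1 i ≤ B := by
  by_cases hv : ∃ a, v.1 a ≠ 0
  · obtain ⟨a, ha⟩ := hv
    rw [Finset.sum_eq_single a]
    · exact h a
    · intro b _ hb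
      exact (v.2.2 b a hb).resolve_right ha
    · simp
  · push Not at hv
    rw [Finset.sum_eq_zero (fun i _ => hv i)]
    exact hB

/-- The signed coordinate: the distance from the centre, with negative sign outside of the `i`-th
edge. -/
def sg (i : Fin k) (v : Star ℓ) : ℝ := ∑ j, if j = i then v.1 j else -v.1 j

theorem sg_lip (i : Fin k) (v w : Star ℓ) : |sg i v - sg i w| ≤ dst v w := by
  unfold sg dst
  rw [← Finset.sum_sub_distrib]
  refine (Finset.abs_sum_le_sum_abs _ _).trans (Finset.sum_le_sum fun j _ => ?_)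
  split_ifs
  · exact le_rfl
  · rw [show -v.1 j - -w.1 j = -(v.1 j - w.1 j) by ring, abs_neg]

theorem coord_lip (i : Fin k) (v w : Star ℓ) : |v.1 i - w.1 i| ≤ dst v w :=
  Finset.single_le_sum (f := fun j => |v.1 j - w.1 j|) (fun _ _ => abs_nonneg _)
    (Finset.mem_univ i)

theorem sg_le (i : Fin k) (v : Star ℓ) : sg i v ≤ v.1 i := by
  unfold sg
  calc ∑ j, (if j = i then v.1 j else -v.1 j) ≤ ∑ j, (if j = i then v.1 j else 0) := by
        apply Finset.sum_le_sum
        intro j _
        split_ifs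
        · exact le_rfl
        · linarith [(v.2.1 j).1]
    _ = v.1 i := by simp

/-- If the cop is on the `i`-th edge or at the centre and the signed coordinates agree, then the
robber is caught. -/
theorem meet {i : Fin k} {F G : Star ℓ} (hF : ∀ j, j ≠ i → F.1 j = 0) (h : sg i G = F.1 i) :
    F = G := by
  by_cases hG : G.1 i = 0
  · -- the robber is not in the interior of the edge
    have h1 : sg i G = -∑ j, G.1 j := by
      unfold sg
      rw [← Finset.sum_neg_distrib]
      apply Finset.sum_congr rfl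
      intro j _
      split_ifs with hj
      · rw [hj, hG, neg_zero]
      · rfl
    have h2 : 0 ≤ ∑ j, G.1 j := Finset.sum_nonneg fun j _ => (G.2.1 j).1
    have h3 := (F.2.1 i).1
    have h4 : ∑ j, G.1 j = 0 := by linarith
    have h5 := (Finset.sum_eq_zero_iff_of_nonneg fun j _ => (G.2.1 j).1).1 h4
    apply Star.ext'
    intro j
    rw [h5 j (Finset.mem_univ j)]
    by_cases hj : j = i
    · rw [hj]
      linarith
    · exact hF j hj
  · have h1 : ∀ j, j ≠ i → G.1 j = 0 := fun j hj => (G.2.2 j i hj).resolve_right hG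
    have h2 : sg i G = G.1 i := by
      unfold sg
      rw [Finset.sum_eq_single i]
      · simp
      · intro j _ hj
        rw [if_neg hj, h1 j hj, neg_zero]
      · simp
    apply Star.ext'
    intro j
    by_cases hj : j = i
    · rw [hj, ← h, h2]
    · rw [hF j hj, h1 j hj]

end Basic

/-! ### Catching a robber by growing round trips -/

section Catch

variable {k : ℕ} {ℓ : Fin k → ℝ}

theorem sg_continuousOn {U : ℝ} {G : ℝ → Star ℓ} (hG : Lip 1 U G) (i : Fin k) :
    ContinuousOn (fun u => sg i (G u)) (Set.Icc 0 U) := by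
  have : LipschitzOnWith 1 (fun u => sg i (G u)) (Set.Icc 0 U) := by
    apply LipschitzOnWith.of_dist_le_mul
    intro x hx y hy
    rw [Real.dist_eq, Real.dist_eq]
    exact (sg_lip i _ _).trans (hG x hx y hy)
  exact this.continuousOn

theorem coord_continuousOn {U s : ℝ} (hs : 0 ≤ s) {F : ℝ → Star ℓ} (hF : Lip s U F) (i : Fin k) :
    ContinuousOn (fun u => (F u).1 i) (Set.Icc 0 U) := by
  have : LipschitzOnWith s.toNNReal (fun u => (F u).1 i) (Set.Icc 0 U) := by
    apply LipschitzOnWith.of_dist_le_mul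
    intro x hx y hy
    rw [Real.dist_eq, Real.dist_eq, Real.coe_toNNReal s hs]
    exact (coord_lip i _ _).trans (hF x hx y hy)
  exact this.continuousOn

/-- A robber who is in the interior of the `i`-th edge at the time `0` is caught. -/
theorem catch_edge {m : ℕ} {ρ s U : ℝ} (hρ : 1 < ρ) (hs : 0 < s)
    (hcond : ρ ^ m < 1 + (ρ - 1) * ((s + 1) / 2)) (i : Fin k) (r : ℤ) {F G : ℝ → Star ℓ}
    (hG : Lip 1 U G) (hF : Lip s U F)
    (hF1 : ∀ n : ℤ, n % m = r → ∀ u, ρ ^ n ≤ u → u ≤ ρ ^ n * ((1 + ρ) / 2) →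
      ∀ j, j ≠ i → (F u).1 j = 0)
    (hF2 : ∀ n : ℤ, n % m = r → (F (ρ ^ n)).1 i = 0)
    (hF3 : ∀ n : ℤ, n % m = r →
      min (ℓ i) (s * (ρ ^ n * ((ρ - 1) / 2))) ≤ (F (ρ ^ n * ((1 + ρ) / 2))).1 i)
    (hm : 0 < m) (N : ℤ) (hN : N % m = r) (hNℓ : ℓ i ≤ s * (ρ ^ N * ((ρ - 1) / 2)))
    (hNU : ρ ^ N * ((1 + ρ) / 2) ≤ U) (hstart : 0 < sg i (G 0)) :
    ∃ u ∈ Set.Icc 0 U, F u = G u := by
  by_contra hno
  push Not at hno
  have hρ0 : 0 < ρ := by linarith
  have hpos : ∀ n : ℤ, 0 < ρ ^ n := fun n => zpow_pos hρ0 n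
  -- one half of a round trip
  have hlap : ∀ n : ℤ, n % m = r → ρ ^ n * ((1 + ρ) / 2) ≤ U → 0 < sg i (G (ρ ^ n)) →
      (F (ρ ^ n * ((1 + ρ) / 2))).1 i < sg i (G (ρ ^ n * ((1 + ρ) / 2))) := by
    intro n hn hU h0
    by_contra hcon
    push Not at hcon
    have hle : ρ ^ n ≤ ρ ^ n * ((1 + ρ) / 2) := by
      have := hpos n
      nlinarith
    have hsub : Set.Icc (ρ ^ n) (ρ ^ n * ((1 + ρ) / 2)) ⊆ Set.Icc 0 U := fun u hu =>
      ⟨(hpos n).le.trans hu.1, hu.2.trans hU⟩
    have hcont : ContinuousOn (fun u => sg i (G u) - (F u).1 i)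
        (Set.Icc (ρ ^ n) (ρ ^ n * ((1 + ρ) / 2))) :=
      ((sg_continuousOn hG i).mono hsub).sub ((coord_continuousOn hs.le hF i).mono hsub)
    have h1 : (0 : ℝ) ∈ Set.Icc
        (sg i (G (ρ ^ n * ((1 + ρ) / 2))) - (F (ρ ^ n * ((1 + ρ) / 2))).1 i)
        (sg i (G (ρ ^ n)) - (F (ρ ^ n)).1 i) := by
      constructor
      · linarith
      · rw [hF2 n hn]
        linarith
    obtain ⟨u, hu, h2⟩ := intermediate_value_Icc' hle hcont h1
    exact hno u (hsub hu) (meet (hF1 n hn u hu.1 hu.2) (by simpa [sub_eq_zero] using h2))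
  -- from one round trip to the next one
  have key : ∀ p : ℕ, ¬ 0 < sg i (G (ρ ^ (N - m * p))) := by
    intro p
    induction p with
    | zero =>
      intro h0
      rw [Nat.cast_zero, mul_zero, sub_zero] at h0
      have h1 := hlap N hN hNU h0
      have h2 := hF3 N hN
      rw [min_eq_left hNℓ] at h2
      have h3 := sg_le i (G (ρ ^ N * ((1 + ρ) / 2)))
      have h4 := ((G (ρ ^ N * ((1 + ρ) / 2))).2.1 i).2
      linarith
    | succ p ih =>
      intro h0
      apply ih
      set n : ℤ := N - m * ((p + 1 : ℕ) : ℤ) with hn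
      have hnr : n % m = r := by
        rw [hn, Int.sub_mul_emod_self_left]
        exact hN
      have e1 : N - m * (p : ℤ) = n + m := by
        rw [hn]
        push_cast
        ring
      have hle1 : ρ ^ (n + m) ≤ ρ ^ N := by
        apply zpow_le_zpow_right₀ hρ.le
        rw [← e1]
        have : (0 : ℤ) ≤ m * p := by positivity
        omega
      have hle2 : ρ ^ n ≤ ρ ^ N := by
        apply zpow_le_zpow_right₀ hρ.le
        rw [hn]
        have : (0 : ℤ) ≤ m * ((p + 1 : ℕ) : ℤ) := by positivity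
        omega
      have hfac : 1 ≤ (1 + ρ) / 2 := by linarith
      have hNN : ρ ^ N ≤ ρ ^ N * ((1 + ρ) / 2) := by
        have := hpos N
        nlinarith
      have hmid : ρ ^ n * ((1 + ρ) / 2) ≤ U :=
        (mul_le_mul_of_nonneg_right hle2 (by linarith)).trans hNU
      have h1 := hlap n hnr hmid h0
      have h2 := hF3 n hnr
      have h3 := sg_le i (G (ρ ^ n * ((1 + ρ) / 2)))
      have h4 := ((G (ρ ^ n * ((1 + ρ) / 2))).2.1 i).2
      have h5 : s * (ρ ^ n * ((ρ - 1) / 2)) < sg i (G (ρ ^ n * ((1 + ρ) / 2))) := by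
        rcases min_choice (ℓ i) (s * (ρ ^ n * ((ρ - 1) / 2))) with h6 | h6
        · rw [h6] at h2
          linarith
        · rw [h6] at h2
          linarith
      have h6 : ρ ^ (n + m) = ρ ^ n * ρ ^ m := by
        rw [zpow_add₀ hρ0.ne', zpow_natCast]
      have h7 := (sg_lip i (G (ρ ^ n * ((1 + ρ) / 2))) (G (ρ ^ (n + m)))).trans
        (hG _ ⟨by have := hpos n; positivity, hmid⟩ _ ⟨(hpos _).le, hle1.trans (hNN.trans hNU)⟩)
      have h8 : ρ ^ n * ρ ^ m < ρ ^ n * (1 + (ρ - 1) * ((s + 1) / 2)) :=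
        mul_lt_mul_of_pos_left hcond (hpos n)
      have hmm : ρ ^ n * ((1 + ρ) / 2) ≤ ρ ^ (n + m) := by
        rw [h6]
        apply mul_le_mul_of_nonneg_left _ (hpos n).le
        have : ρ ^ 1 ≤ ρ ^ m := pow_le_pow_right₀ hρ.le hm
        rw [pow_one] at this
        linarith
      rw [abs_of_nonpos (sub_nonpos.2 hmm)] at h7
      have h9 := le_abs_self (sg i (G (ρ ^ n * ((1 + ρ) / 2))) - sg i (G (ρ ^ (n + m))))
      rw [e1]
      rw [h6] at h7 h9 ⊢
      nlinarith
  -- the start
  obtain ⟨p, hp⟩ : ∃ p : ℕ, (ρ ^ (-(m : ℤ))) ^ p < sg i (G 0) / ρ ^ N := by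
    apply exists_pow_lt_of_lt_one (div_pos hstart (hpos N))
    rw [zpow_neg, zpow_natCast]
    apply inv_lt_one_of_one_lt₀
    exact one_lt_pow₀ hρ hm.ne'
  apply key p
  have h1 : ρ ^ (N - m * p) < sg i (G 0) := by
    rw [lt_div_iff₀ (hpos N)] at hp
    have : ρ ^ (N - m * (p : ℤ)) = (ρ ^ (-(m : ℤ))) ^ p * ρ ^ N := by
      rw [← zpow_natCast, ← zpow_mul, ← zpow_add₀ hρ0.ne']
      congr 1
      ring
    rwa [this]
  have hle1 : ρ ^ (N - m * (p : ℤ)) ≤ ρ ^ N := by
    apply zpow_le_zpow_right₀ hρ.le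
    have : (0 : ℤ) ≤ m * p := by positivity
    omega
  have hNN : ρ ^ N ≤ ρ ^ N * ((1 + ρ) / 2) := by
    have := hpos N
    nlinarith
  have hU0 : 0 ≤ U := by
    have := hpos N
    linarith
  have h2 := (sg_lip i (G 0) (G (ρ ^ (N - m * (p : ℤ))))).trans
    (hG 0 ⟨le_rfl, hU0⟩ _ ⟨(hpos _).le, hle1.trans (hNN.trans hNU)⟩)
  rw [zero_sub, abs_neg, abs_of_pos (hpos _), one_mul] at h2
  have h3 := le_abs_self (sg i (G 0) - sg i (G (ρ ^ (N - m * (p : ℤ)))))
  linarith

end Catch

/-! ### The path of the cop -/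

section Path

variable {k : ℕ} {ℓ : Fin k → ℝ}

/-- The path which, during each component of `O i`, makes a round trip of speed `s` into the
`i`-th edge. -/
noncomputable def path (ℓ : Fin k → ℝ) (hℓ : ∀ i, 0 < ℓ i) {s : ℝ} (hs : 0 ≤ s)
    (O : Fin k → Set ℝ) (hO : ∀ i j, i ≠ j → Disjoint (O i) (O j)) (t : ℝ) : Star ℓ :=
  ⟨fun i => min (ℓ i) (s * Metric.infDist t (O i)ᶜ), by
    constructor
    · intro i
      exact ⟨le_min (hℓ i).le (mul_nonneg hs Metric.infDist_nonneg), min_le_left _ _⟩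
    · intro i j hij
      by_cases h : t ∈ O i
      · right
        have h1 : t ∈ (O j)ᶜ := fun h2 => Set.disjoint_left.1 (hO i j hij) h h2
        beta_reduce
        rw [Metric.infDist_zero_of_mem h1, mul_zero, min_eq_right (hℓ j).le]
      · left
        have h1 : t ∈ (O i)ᶜ := h
        beta_reduce
        rw [Metric.infDist_zero_of_mem h1, mul_zero, min_eq_right (hℓ i).le]⟩

theorem path_coord_lip (hℓ : ∀ i, 0 < ℓ i) {s : ℝ} (hs : 0 ≤ s)
    (O : Fin k → Set ℝ) (hO : ∀ i j, i ≠ j → Disjoint (O i) (O j)) (i : Fin k) (t t' : ℝ) :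
    |(path ℓ hℓ hs O hO t).1 i - (path ℓ hℓ hs O hO t').1 i| ≤ s * |t - t'| := by
  simp only [path]
  refine (abs_min_sub_min_le_max _ _ _ _).trans ?_
  rw [sub_self, abs_zero, max_eq_right (abs_nonneg _), ← mul_sub, abs_mul, abs_of_nonneg hs]
  apply mul_le_mul_of_nonneg_left _ hs
  have := (Metric.lipschitz_infDist_pt (O i)ᶜ).dist_le_mul t t'
  rwa [Real.dist_eq, Real.dist_eq, NNReal.coe_one, one_mul] at this

theorem path_zero (hℓ : ∀ i, 0 < ℓ i) {s : ℝ} (hs : 0 ≤ s)
    (O : Fin k → Set ℝ) (hO : ∀ i j, i ≠ j → Disjoint (O i) (O j)) (i : Fin k) {t : ℝ}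
    (ht : t ∉ O i) : (path ℓ hℓ hs O hO t).1 i = 0 := by
  have h1 : t ∈ (O i)ᶜ := ht
  simp only [path]
  rw [Metric.infDist_zero_of_mem h1, mul_zero, min_eq_right (hℓ i).le]

theorem path_lip (hℓ : ∀ i, 0 < ℓ i) {s : ℝ} (hs : 0 ≤ s)
    (O : Fin k → Set ℝ) (hO : ∀ i j, i ≠ j → Disjoint (O i) (O j)) (hopen : ∀ i, IsOpen (O i))
    (t t' : ℝ) (htt : t ≤ t') :
    dst (path ℓ hℓ hs O hO t) (path ℓ hℓ hs O hO t') ≤ s * |t - t'| := by
  by_cases hA : ∃ e ∈ Set.Icc t t', ∀ i, e ∉ O i
  · obtain ⟨e, he, hei⟩ := hA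
    have hz : ∀ i, (path ℓ hℓ hs O hO e).1 i = 0 := fun i => path_zero hℓ hs O hO i (hei i)
    have h1 : ∑ i, (path ℓ hℓ hs O hO t).1 i ≤ s * (e - t) := by
      apply sum_le _ (mul_nonneg hs (by linarith [he.1]))
      intro i
      have := path_coord_lip hℓ hs O hO i t e
      rw [hz i, sub_zero, abs_of_nonneg ((path ℓ hℓ hs O hO t).2.1 i).1,
        abs_of_nonpos (by linarith [he.1])] at this
      linarith
    have h2 : ∑ i, (path ℓ hℓ hs O hO t').1 i ≤ s * (t' - e) := by
      apply sum_le _ (mul_nonneg hs (by linarith [he.2]))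
      intro i
      have := path_coord_lip hℓ hs O hO i t' e
      rw [hz i, sub_zero, abs_of_nonneg ((path ℓ hℓ hs O hO t').2.1 i).1,
        abs_of_nonneg (by linarith [he.2])] at this
      linarith
    have h3 : dst (path ℓ hℓ hs O hO t) (path ℓ hℓ hs O hO t') ≤
        ∑ i, (path ℓ hℓ hs O hO t).1 i + ∑ i, (path ℓ hℓ hs O hO t').1 i := by
      unfold dst
      rw [← Finset.sum_add_distrib]
      apply Finset.sum_le_sum
      intro i _
      have h4 := ((path ℓ hℓ hs O hO t).2.1 i).1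
      have h5 := ((path ℓ hℓ hs O hO t').2.1 i).1
      rw [abs_le]
      constructor <;> linarith
    rw [abs_of_nonpos (by linarith)]
    nlinarith
  · push Not at hA
    obtain ⟨a, ha⟩ := hA t ⟨le_rfl, htt⟩
    -- the whole interval is contained in `O a`
    have hsub : Set.Icc t t' ⊆ O a := by
      by_contra hcon
      rw [Set.not_subset] at hcon
      obtain ⟨x, hx, hxa⟩ := hcon
      obtain ⟨b, hb⟩ := hA x hx
      have hab : b ≠ a := fun h => hxa (h ▸ hb)
      have hpre := isPreconnected_Icc (a := t) (b := t') (O a) (⋃ j ∈ {j | j ≠ a}, O j) (hopen a)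
        (isOpen_biUnion fun j _ => hopen j) (by
          intro y hy
          obtain ⟨j, hj⟩ := hA y hy
          by_cases hja : j = a
          · left
            exact hja ▸ hj
          · right
            exact Set.mem_biUnion (show j ∈ {j | j ≠ a} from hja) hj)
        ⟨t, ⟨le_rfl, htt⟩, ha⟩
        ⟨x, hx, Set.mem_biUnion (show b ∈ {j | j ≠ a} from hab) hb⟩
      obtain ⟨y, -, hy1, hy2⟩ := hpre
      rw [Set.mem_iUnion₂] at hy2
      obtain ⟨j, hj, hy3⟩ := hy2
      exact Set.disjoint_left.1 (hO j a hj) hy3 hy1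
    unfold dst
    rw [Finset.sum_eq_single a]
    · exact path_coord_lip hℓ hs O hO a t t'
    · intro j _ hj
      have h1 : t ∉ O j := fun h => Set.disjoint_left.1 (hO j a hj) h (hsub ⟨le_rfl, htt⟩)
      have h2 : t' ∉ O j := fun h => Set.disjoint_left.1 (hO j a hj) h (hsub ⟨htt, le_rfl⟩)
      rw [path_zero hℓ hs O hO j h1, path_zero hℓ hs O hO j h2, sub_self, abs_zero]
    · simp

theorem dst_comm (v w : Star ℓ) : dst v w = dst w v := by
  unfold dst
  exact Finset.sum_congr rfl fun i _ => abs_sub_comm _ _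

theorem path_lip' (hℓ : ∀ i, 0 < ℓ i) {s : ℝ} (hs : 0 ≤ s)
    (O : Fin k → Set ℝ) (hO : ∀ i j, i ≠ j → Disjoint (O i) (O j)) (hopen : ∀ i, IsOpen (O i))
    (t t' : ℝ) :
    dst (path ℓ hℓ hs O hO t) (path ℓ hℓ hs O hO t') ≤ s * |t - t'| := by
  rcases le_total t t' with h | h
  · exact path_lip hℓ hs O hO hopen t t' h
  · rw [dst_comm, abs_sub_comm]
    exact path_lip hℓ hs O hO hopen t' t h

end Path

/-! ### The strategy -/

section Strategy

/-- The ratio of the round trips. -/
theorem exists_ratio (m : ℕ) (s : ℝ) (hs : 2 * (m : ℝ) - 1 < s) :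
    ∃ ρ : ℝ, 1 < ρ ∧ ρ ^ m < 1 + (ρ - 1) * ((s + 1) / 2) := by
  have hcont : Continuous (fun x : ℝ => ∑ j ∈ Finset.range m, x ^ j) := by fun_prop
  have hopen : IsOpen {x : ℝ | ∑ j ∈ Finset.range m, x ^ j < (s + 1) / 2} :=
    isOpen_lt hcont continuous_const
  have h1 : (1 : ℝ) ∈ {x : ℝ | ∑ j ∈ Finset.range m, x ^ j < (s + 1) / 2} := by
    simp only [Set.mem_ofPred_eq, one_pow, Finset.sum_const, Finset.card_range, nsmul_eq_mul,
      mul_one]
    linarith
  obtain ⟨ε, hε, hball⟩ := Metric.isOpen_iff.1 hopen 1 h1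
  refine ⟨1 + ε / 2, by linarith, ?_⟩
  have h2 : (1 + ε / 2) ∈ {x : ℝ | ∑ j ∈ Finset.range m, x ^ j < (s + 1) / 2} := by
    apply hball
    rw [Metric.mem_ball, Real.dist_eq, add_sub_cancel_left, abs_of_pos (by linarith)]
    linarith
  have h3 : ∑ j ∈ Finset.range m, (1 + ε / 2) ^ j < (s + 1) / 2 := h2
  have h4 := geom_sum_mul (1 + ε / 2) m
  have h5 : (∑ j ∈ Finset.range m, (1 + ε / 2) ^ j) * (1 + ε / 2 - 1) <
      (s + 1) / 2 * (1 + ε / 2 - 1) := mul_lt_mul_of_pos_right h3 (by linarith)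
  linarith

/-- The direction of time for the `i`-th edge. -/
noncomputable def dir (m : ℕ) {k : ℕ} (i : Fin k) : ℝ := if i.1 < m then 1 else -1

/-- The place of the `i`-th edge in the cyclic order of its group. -/
def place (m : ℕ) {k : ℕ} (i : Fin k) : ℕ := if i.1 < m then i.1 else i.1 - m

theorem dir_sq (m : ℕ) {k : ℕ} (i : Fin k) : dir m i * dir m i = 1 := by
  unfold dir
  split_ifs <;> norm_num

theorem dir_abs (m : ℕ) {k : ℕ} (i : Fin k) : |dir m i| = 1 := by
  unfold dir
  split_ifs <;> norm_num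

theorem dir_cases (m : ℕ) {k : ℕ} (i j : Fin k) : dir m i = dir m j ∨ dir m i = -dir m j := by
  unfold dir
  split_ifs <;> norm_num

theorem dir_place {m k : ℕ} {i j : Fin k} (h1 : dir m i = dir m j)
    (h2 : place m i = place m j) : i = j := by
  unfold dir at h1
  unfold place at h2
  apply Fin.ext
  split_ifs at h1 h2 with h3 h4 h4
  · exact h2
  · norm_num at h1
  · norm_num at h1
  · omega

/-- The times of the round trips into the `i`-th edge. -/
def slots (m : ℕ) (ρ U : ℝ) {k : ℕ} (i : Fin k) : Set ℝ :=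
  {t | ∃ n : ℤ, n % m = place m i ∧ ρ ^ n < dir m i * (t - U) ∧ dir m i * (t - U) < ρ ^ (n + 1)}

theorem isOpen_slots (m : ℕ) (ρ U : ℝ) {k : ℕ} (i : Fin k) : IsOpen (slots m ρ U i) := by
  have : slots m ρ U i = ⋃ n ∈ {n : ℤ | n % m = place m i},
      (fun t => dir m i * (t - U)) ⁻¹' Set.Ioo (ρ ^ n) (ρ ^ (n + 1)) := by
    ext t
    simp only [slots, Set.mem_ofPred_eq, Set.mem_iUnion, Set.mem_preimage, Set.mem_Ioo,
      exists_prop]
  rw [this]
  exact isOpen_biUnion fun n _ => isOpen_Ioo.preimage (by fun_prop)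

/-- A time between two consecutive powers, in the direction of `i`, belongs only to the slot of the
right edge. -/
theorem slots_unique {m : ℕ} {ρ U : ℝ} (hρ : 1 < ρ) {k : ℕ} {i j : Fin k} {n : ℤ} {u : ℝ}
    (hn : n % m = place m i) (h1 : ρ ^ n ≤ u) (h2 : u < ρ ^ (n + 1))
    (h : U + dir m i * u ∈ slots m ρ U j) : i = j ∧ ρ ^ n < u := by
  obtain ⟨n', hn', h3, h4⟩ := h
  have hρ0 : 0 < ρ := by linarith
  have hu : 0 < u := (zpow_pos hρ0 n).trans_le h1
  have hdir : dir m i = dir m j := by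
    rcases dir_cases m i j with h5 | h5
    · exact h5
    · exfalso
      have h6 : dir m j * (U + dir m i * u - U) = -u := by
        have := dir_sq m j
        rw [h5]
        linear_combination (-u) * this
      rw [h6] at h3
      have := zpow_pos hρ0 n'
      linarith
  have h6 : dir m j * (U + dir m i * u - U) = u := by
    have := dir_sq m j
    rw [hdir]
    linear_combination u * this
  rw [h6] at h3 h4
  have h7 : n < n' + 1 := (zpow_lt_zpow_iff_right₀ hρ).1 (h1.trans_lt h4)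
  have h8 : n' < n + 1 := (zpow_lt_zpow_iff_right₀ hρ).1 (h3.trans h2)
  have h9 : n = n' := by omega
  subst h9
  have h10 : place m i = place m j := by
    rw [hn] at hn'
    exact_mod_cast hn'
  exact ⟨dir_place hdir h10, h3⟩

theorem slots_disjoint {m : ℕ} {ρ U : ℝ} (hρ : 1 < ρ) {k : ℕ} (i j : Fin k) (hij : i ≠ j) :
    Disjoint (slots m ρ U i) (slots m ρ U j) := by
  rw [Set.disjoint_left]
  rintro t ⟨n, hn, h1, h2⟩ hj
  apply hij
  have e : t = U + dir m i * (dir m i * (t - U)) := by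
    have := dir_sq m i
    linear_combination (-(t - U)) * this
  rw [e] at hj
  exact (slots_unique hρ hn h1.le h2 hj).1

theorem winnable {k : ℕ} (ℓ : Fin k → ℝ) (hℓ : ∀ i, 0 < ℓ i) (m : ℕ) (hm : 0 < m)
    (hk : k ≤ 2 * m) (s : ℝ) (hs : 2 * (m : ℝ) - 1 < s) : Winnable ℓ s := by
  have hm1 : (1 : ℝ) ≤ m := by exact_mod_cast hm
  have hs0 : 0 < s := by linarith
  obtain ⟨ρ, hρ, hcond⟩ := exists_ratio m s hs
  have hρ0 : 0 < ρ := by linarith
  have hpos : ∀ n : ℤ, 0 < ρ ^ n := fun n => zpow_pos hρ0 n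
  -- the number of round trips
  obtain ⟨Q, hQ⟩ : ∃ Q : ℕ, (∑ i, ℓ i) / (s * ((ρ - 1) / 2)) < ρ ^ Q :=
    pow_unbounded_of_one_lt _ hρ
  have hfac : 0 < s * ((ρ - 1) / 2) := by
    apply mul_pos hs0
    linarith
  rw [div_lt_iff₀ hfac] at hQ
  let U : ℝ := ρ ^ (((m * (Q + 1) : ℕ) : ℤ)) * ((1 + ρ) / 2)
  have hU0 : 0 < U := mul_pos (hpos _) (by linarith)
  let f : ℝ → Star ℓ := path ℓ hℓ hs0.le (slots m ρ U) (slots_disjoint hρ)
  have hflip : ∀ t t', dst (f t) (f t') ≤ s * |t - t'| := fun t t' =>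
    path_lip' hℓ hs0.le _ (slots_disjoint hρ) (isOpen_slots m ρ U) t t'
  refine ⟨2 * U, by linarith, f, fun t _ t' _ => hflip t t', fun g hg => ?_⟩
  -- the position of the robber at the time `U`
  by_cases hcenter : ∀ i, (g U).1 i = 0
  · refine ⟨U, ⟨hU0.le, by linarith⟩, ?_⟩
    apply Star.ext'
    intro i
    rw [hcenter i]
    apply path_zero
    rintro ⟨n, -, h1, -⟩
    rw [sub_self, mul_zero] at h1
    exact (hpos n).not_gt h1
  · push Not at hcenter
    obtain ⟨i, hi⟩ := hcenter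
    have hgi : 0 < (g U).1 i := lt_of_le_of_ne ((g U).2.1 i).1 (Ne.symm hi)
    have hsg : sg i (g U) = (g U).1 i := by
      unfold sg
      rw [Finset.sum_eq_single i]
      · simp
      · intro j _ hj
        rw [if_neg hj, ((g U).2.2 j i hj).resolve_right hi, neg_zero]
      · simp
    have hplace : place m i < m := by
      unfold place
      split_ifs with h1
      · exact h1
      · have := i.2
        omega
    let N : ℤ := m * Q + place m i
    have hN : N % m = place m i := by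
      have h1 : (place m i : ℤ) < m := by exact_mod_cast hplace
      have h2 : (0 : ℤ) ≤ place m i := by positivity
      rw [show N = (place m i : ℤ) + m * Q by simp only [N]; ring, Int.add_mul_emod_self_left]
      exact Int.emod_eq_of_lt h2 h1
    have htime : ∀ u ∈ Set.Icc 0 U, U + dir m i * u ∈ Set.Icc 0 (2 * U) := by
      intro u hu
      have h1 := dir_abs m i
      have h2 : |dir m i * u| ≤ U := by
        rw [abs_mul, h1, one_mul, abs_of_nonneg hu.1]
        exact hu.2
      rw [abs_le] at h2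
      constructor <;> linarith [h2.1, h2.2]
    have hdiff : ∀ u u', |U + dir m i * u - (U + dir m i * u')| = |u - u'| := by
      intro u u'
      rw [show U + dir m i * u - (U + dir m i * u') = dir m i * (u - u') by ring, abs_mul,
        dir_abs, one_mul]
    obtain ⟨u, hu, h⟩ := catch_edge (ℓ := ℓ) (m := m) (ρ := ρ) (s := s) (U := U) hρ hs0 hcond i
      (place m i) (F := fun u => f (U + dir m i * u)) (G := fun u => g (U + dir m i * u))
      (by
        intro u hu u' hu'
        have := hg _ (htime u hu) _ (htime u' hu')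
        rwa [hdiff] at this)
      (by
        intro u hu u' hu'
        have := hflip (U + dir m i * u) (U + dir m i * u')
        rwa [hdiff] at this)
      (by
        intro n hn u h1 h2 j hj
        apply path_zero
        intro h3
        have h4 : u < ρ ^ (n + 1) := by
          rw [zpow_add_one₀ hρ0.ne']
          have := hpos n
          nlinarith
        exact hj (slots_unique hρ hn h1 h4 h3).1.symm)
      (by
        intro n hn
        apply path_zero
        intro h3
        have h4 : ρ ^ n < ρ ^ (n + 1) := by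
          rw [zpow_add_one₀ hρ0.ne']
          have := hpos n
          nlinarith
        exact absurd (slots_unique hρ hn le_rfl h4 h3).2 (lt_irrefl _))
      (by
        intro n hn
        change _ ≤ min (ℓ i) _
        apply min_le_min le_rfl
        apply mul_le_mul_of_nonneg_left _ hs0.le
        rw [Metric.le_infDist]
        · intro y hy
          by_contra hcon
          push Not at hcon
          apply hy
          refine ⟨n, hn, ?_⟩
          rw [Real.dist_eq, abs_sub_lt_iff] at hcon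
          have e1 := dir_sq m i
          have e2 : ρ ^ (n + 1) = ρ ^ n * ρ := zpow_add_one₀ hρ0.ne' n
          rcases (show dir m i = 1 ∨ dir m i = -1 by unfold dir; split_ifs <;> simp) with h5 | h5
          · rw [h5] at hcon ⊢
            rw [e2]
            constructor <;> nlinarith [hcon.1, hcon.2]
          · rw [h5] at hcon ⊢
            rw [e2]
            constructor <;> nlinarith [hcon.1, hcon.2]
        · refine ⟨U, ?_⟩
          rintro ⟨n', -, h6, -⟩
          rw [sub_self, mul_zero] at h6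
          exact (hpos n').not_gt h6)
      hm N hN (by
        have h1 : ρ ^ Q ≤ ρ ^ N := by
          rw [← zpow_natCast]
          apply zpow_le_zpow_right₀ hρ.le
          simp only [N]
          have h2 : (1 : ℤ) * Q ≤ m * Q := by
            apply mul_le_mul_of_nonneg_right _ (by positivity)
            exact_mod_cast hm
          have h3 : (0 : ℤ) ≤ place m i := by positivity
          linarith
        have h2 : ℓ i ≤ ∑ i, ℓ i :=
          Finset.single_le_sum (f := ℓ) (fun j _ => (hℓ j).le) (Finset.mem_univ i)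
        nlinarith)
      (by
        apply mul_le_mul_of_nonneg_right _ (by linarith)
        apply zpow_le_zpow_right₀ hρ.le
        simp only [N]
        push_cast
        have : (place m i : ℤ) < m := by exact_mod_cast hplace
        nlinarith)
      (by
        simp only [mul_zero, add_zero]
        rw [hsg]
        exact hgi)
    exact ⟨U + dir m i * u, htime u hu, h⟩

end Strategy

/-- For `k ≥ 2` and all positive lengths the cop wins on the star `S_k` at every speed
`s > 2⌈k/2⌉ - 1`.  Hence for `k ≥ 4` and all positive lengths the critical speed is at most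
`2⌈k/2⌉ - 1 < 2k - 3`, and the cop wins at speed `2k - 3`.  In particular it is not true that for
all `k ≥ 3` and all positive lengths the cop wins exactly at the speeds greater than `2k - 3`. -/
theorem result :
    (∀ (k : ℕ), 2 ≤ k → ∀ ℓ : Fin k → ℝ, (∀ i, 0 < ℓ i) →
      ∀ s : ℝ, 2 * (((k + 1) / 2 : ℕ) : ℝ) - 1 < s → Winnable ℓ s) ∧
    (∀ (k : ℕ), 4 ≤ k → ∀ ℓ : Fin k → ℝ, (∀ i, 0 < ℓ i) →
      Winnable ℓ (2 * (k : ℝ) - 3) ∧ criticalSpeed ℓ ≤ 2 * (((k + 1) / 2 : ℕ) : ℝ) - 1 ∧
      criticalSpeed ℓ < 2 * (k : ℝ) - 3) ∧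
    ¬ ∀ (k : ℕ), 3 ≤ k → ∀ ℓ : Fin k → ℝ, (∀ i, 0 < ℓ i) →
      ∀ s : ℝ, 0 < s → (Winnable ℓ s ↔ 2 * (k : ℝ) - 3 < s) := by
  have h1 : ∀ (k : ℕ), 2 ≤ k → ∀ ℓ : Fin k → ℝ, (∀ i, 0 < ℓ i) →
      ∀ s : ℝ, 2 * (((k + 1) / 2 : ℕ) : ℝ) - 1 < s → Winnable ℓ s := by
    intro k hk ℓ hℓ s hs
    exact winnable ℓ hℓ ((k + 1) / 2) (by omega) (by omega) s hs
  have h2 : ∀ (k : ℕ), 4 ≤ k → 2 * (((k + 1) / 2 : ℕ) : ℝ) - 1 < 2 * (k : ℝ) - 3 := by
    intro k hk
    have : (k + 1) / 2 + 2 ≤ k := by omega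
    have h3 : (((k + 1) / 2 + 2 : ℕ) : ℝ) ≤ k := by exact_mod_cast this
    push_cast at h3
    have h4 : ((((k + 1) / 2 : ℕ)) : ℝ) + 2 ≤ k := by exact_mod_cast this
    linarith
  have h3 : ∀ (k : ℕ), 4 ≤ k → ∀ ℓ : Fin k → ℝ, (∀ i, 0 < ℓ i) →
      Winnable ℓ (2 * (k : ℝ) - 3) ∧ criticalSpeed ℓ ≤ 2 * (((k + 1) / 2 : ℕ) : ℝ) - 1 ∧
      criticalSpeed ℓ < 2 * (k : ℝ) - 3 := by
    intro k hk ℓ hℓ
    have h5 : criticalSpeed ℓ ≤ 2 * (((k + 1) / 2 : ℕ) : ℝ) - 1 := by
      apply le_of_forall_pos_le_add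
      intro ε hε
      apply csInf_le
      · exact ⟨0, fun s hs => hs.1.le⟩
      · refine ⟨?_, h1 k (by omega) ℓ hℓ _ (by linarith)⟩
        have : (1 : ℝ) ≤ (((k + 1) / 2 : ℕ) : ℝ) := by
          exact_mod_cast (show 1 ≤ (k + 1) / 2 by omega)
        linarith
    exact ⟨h1 k (by omega) ℓ hℓ _ (h2 k hk), h5, h5.trans_lt (h2 k hk)⟩
  refine ⟨h1, h3, fun hcon => ?_⟩
  have h4 := (hcon 4 (by norm_num) (fun _ => 1) (fun _ => one_pos) (2 * ((4 : ℕ) : ℝ) - 3)
    (by norm_num)).1 (h3 4 le_rfl _ (fun _ => one_pos)).1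
  exact lt_irrefl _ h4

end Pool.Agent.Results.MP_29e9a5_co.StarSpeed
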